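import Pool.Agent.helper85.AQ.SpecB

/-!
# Project aq, row BT2: composition
-/

set_option autoImplicit false

namespace Pool.Agent.AQ

open Polynomial Pool.Agent.HC Pool.Agent.HC.SJ Pool.Agent.SJ Pool.Agent.GJ Pool.Agent.TK Pool.Agent.CM
open Pool.Agent.TQJ Pool.Agent.TQG
open Pool.Agent.FJ (VT Om chiO rf rs IsFrobO)
open Pool.Agent.TD (zK DvK bC mK IsPhiK Stab)
open scoped TensorProduct NumberField

noncomputable section

theorem BT2 (hBT1 : BT1_stmt) (h7 : KA7_stmt) : BT2_stmt := by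
  intro K K' K'' _ _ _ _ _ _ l n _ _ _ _ μ a a' a'' _ _ _ _ _ _ σ c e d π σ' c' e' d' π' E E' E''
    hQ hQ' hE hE' hE'' C
  have hpt := (hBT1 K K' l n μ a a' σ c e d π hQ).2
  have hpt' := (hBT1 K' K'' l n μ a' a'' σ' c' e' d' π' hQ').2
  have hone : ∀ q : Pc K l μ a, E' (E (cl q)) = E'' (cl q) := by
    intro q
    obtain ⟨q', h1, h2⟩ := hpt q
    obtain ⟨q'', h3, h4⟩ := hpt' q'
    rw [hE q q' h1 h2, hE' q' q'' h3 h4]
    refine (hE'' q q'' ?_ ?_).symm
    · rw [h3, h1, map_add, map_mul, RingEquiv.trans_apply]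
      ring
    · rw [h4, h2, map_mul, RingEquiv.trans_apply]
      ring
  obtain ⟨S, hS⟩ := (h7 K l n μ a).2.1 C
  rw [hS, map_multiset_prod, map_multiset_prod, map_multiset_prod, Multiset.map_map, Multiset.map_map,
    Multiset.map_map]
  congr 1
  refine Multiset.map_congr rfl fun q _ => ?_
  exact hone q

end

end Pool.Agent.AQ
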