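import Pool.Agent.helper85.AQ.SpecL
import Pool.Agent.helper39.GJ.SpecL

/-!
# Project aq, row LFE: eigenvectors on the second factor
-/

set_option autoImplicit false

namespace Pool.Agent.AQ

open Pool.Agent.GJ
open scoped TensorProduct

noncomputable section

section
variable {k V V' : Type} [Field k] [AddCommGroup V] [Module k V] [AddCommGroup V'] [Module k V']

/-- contraction -/
def LFE_c (δ : V →ₗ[k] k) : ExteriorAlgebra k V →ₗ[k] ExteriorAlgebra k V :=
  CliffordAlgebra.contractLeft (Q := (0 : QuadraticForm k V)) δ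

theorem LFE_c_mul (δ : V →ₗ[k] k) (v : V) (x : ExteriorAlgebra k V) :
    LFE_c δ (ExteriorAlgebra.ι k v * x) = δ v • x - ExteriorAlgebra.ι k v * LFE_c δ x :=
  CliffordAlgebra.contractLeft_ι_mul (Q := (0 : QuadraticForm k V)) δ v x

theorem LFE_c_alg (δ : V →ₗ[k] k) (c : k) : LFE_c δ (algebraMap k (ExteriorAlgebra k V) c) = 0 :=
  CliffordAlgebra.contractLeft_algebraMap (Q := (0 : QuadraticForm k V)) δ c

theorem LFE_c_c (δ : V →ₗ[k] k) (x : ExteriorAlgebra k V) : LFE_c δ (LFE_c δ x) = 0 :=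
  CliffordAlgebra.contractLeft_contractLeft (Q := (0 : QuadraticForm k V)) δ x

theorem LFE_c_comm (δ δ' : V →ₗ[k] k) (x : ExteriorAlgebra k V) :
    LFE_c δ (LFE_c δ' x) = -LFE_c δ' (LFE_c δ x) :=
  CliffordAlgebra.contractLeft_comm (Q := (0 : QuadraticForm k V)) δ δ' x

theorem LFE_c_smul (c : k) (δ : V →ₗ[k] k) (x : ExteriorAlgebra k V) :
    LFE_c (c • δ) x = c • LFE_c δ x := by
  unfold LFE_c
  rw [map_smul]
  rfl

theorem LFE_c_zero (x : ExteriorAlgebra k V) : LFE_c (0 : V →ₗ[k] k) x = 0 := by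
  unfold LFE_c
  rw [map_zero]
  rfl

theorem LFE_indu {P : ExteriorAlgebra k V → Prop}
    (h0 : ∀ r : k, P (algebraMap k (ExteriorAlgebra k V) r))
    (ha : ∀ x y, P x → P y → P (x + y)) (hm : ∀ x (m : V), P x → P (ExteriorAlgebra.ι k m * x)) :
    ∀ x, P x :=
  CliffordAlgebra.left_induction (Q := (0 : QuadraticForm k V)) h0 ha hm

theorem LFE_c_map (g : V →ₗ[k] V') (δ : V' →ₗ[k] k) (x : ExteriorAlgebra k V) :
    LFE_c δ (ExteriorAlgebra.map g x) = ExteriorAlgebra.map g (LFE_c (δ ∘ₗ g) x) := by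
  refine LFE_indu (P := fun x => LFE_c δ (ExteriorAlgebra.map g x) =
    ExteriorAlgebra.map g (LFE_c (δ ∘ₗ g) x)) ?_ ?_ ?_ x
  · intro r
    rw [AlgHom.commutes, LFE_c_alg, LFE_c_alg, map_zero]
  · intro x y hx hy
    rw [map_add, map_add, map_add, map_add, hx, hy]
  · intro x m hx
    rw [map_mul, ExteriorAlgebra.map_apply_ι, LFE_c_mul, LFE_c_mul, hx, map_sub, map_smul, map_mul,
      ExteriorAlgebra.map_apply_ι]
    rfl

/-- `v ↦ v - δ v e` -/
def LFE_p (δ : V →ₗ[k] k) (e : V) : V →ₗ[k] V := LinearMap.id - δ.smulRight e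

theorem LFE_p_apply (δ : V →ₗ[k] k) (e v : V) : LFE_p δ e v = v - δ v • e := rfl

theorem LFE_split (δ : V →ₗ[k] k) (e : V) (x : ExteriorAlgebra k V) :
    x = ExteriorAlgebra.map (LFE_p δ e) x + ExteriorAlgebra.ι k e * LFE_c δ x := by
  refine LFE_indu (P := fun x => x = ExteriorAlgebra.map (LFE_p δ e) x +
    ExteriorAlgebra.ι k e * LFE_c δ x) ?_ ?_ ?_ x
  · intro r
    rw [AlgHom.commutes, LFE_c_alg, mul_zero, add_zero]
  · intro x y hx hy
    rw [map_add, map_add, mul_add]
    calc x + y = (ExteriorAlgebra.map (LFE_p δ e) x + ExteriorAlgebra.ι k e * LFE_c δ x) +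
          (ExteriorAlgebra.map (LFE_p δ e) y + ExteriorAlgebra.ι k e * LFE_c δ y) := by
          rw [← hx, ← hy]
      _ = _ := by abel
  · intro x m hx
    have hx' : ExteriorAlgebra.map (LFE_p δ e) x = x - ExteriorAlgebra.ι k e * LFE_c δ x :=
      eq_sub_of_add_eq hx.symm
    have h1 : ExteriorAlgebra.ι k e * ExteriorAlgebra.ι k e = 0 := ExteriorAlgebra.ι_sq_zero e
    have h2 : ExteriorAlgebra.ι k e * ExteriorAlgebra.ι k m =
        -(ExteriorAlgebra.ι k m * ExteriorAlgebra.ι k e) :=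
      eq_neg_of_add_eq_zero_left (ExteriorAlgebra.ι_add_mul_swap e m)
    have h3 : ExteriorAlgebra.ι k e * (ExteriorAlgebra.ι k e * LFE_c δ x) = 0 := by
      rw [← mul_assoc, h1, zero_mul]
    have h4 : ExteriorAlgebra.ι k e * (ExteriorAlgebra.ι k m * LFE_c δ x) =
        -(ExteriorAlgebra.ι k m * (ExteriorAlgebra.ι k e * LFE_c δ x)) := by
      rw [← mul_assoc, h2, neg_mul, mul_assoc]
    show ExteriorAlgebra.ι k m * x = ExteriorAlgebra.map (LFE_p δ e) (ExteriorAlgebra.ι k m * x) +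
      ExteriorAlgebra.ι k e * LFE_c δ (ExteriorAlgebra.ι k m * x)
    rw [map_mul, ExteriorAlgebra.map_apply_ι, LFE_c_mul, hx', LFE_p_apply, map_sub, map_smul]
    have h5 : ExteriorAlgebra.ι k e * (δ m • x - ExteriorAlgebra.ι k m * LFE_c δ x) =
        δ m • (ExteriorAlgebra.ι k e * x) + ExteriorAlgebra.ι k m * (ExteriorAlgebra.ι k e * LFE_c δ x) := by
      rw [mul_sub, h4, mul_smul_comm, sub_neg_eq_add]
    have h6 : (ExteriorAlgebra.ι k m - δ m • ExteriorAlgebra.ι k e) *
        (x - ExteriorAlgebra.ι k e * LFE_c δ x) = ExteriorAlgebra.ι k m * x -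
        ExteriorAlgebra.ι k m * (ExteriorAlgebra.ι k e * LFE_c δ x) -
        δ m • (ExteriorAlgebra.ι k e * x) := by
      rw [sub_mul, mul_sub, smul_mul_assoc, mul_sub, h3, sub_zero]
    rw [h5, h6]
    abel

theorem LFE_mem0 (x : ExteriorAlgebra k V) (hx : x ∈ (⋀[k]^0 V : Submodule k (ExteriorAlgebra k V))) :
    ∃ c : k, x = algebraMap k (ExteriorAlgebra k V) c := by
  have h : x ∈ (1 : Submodule k (ExteriorAlgebra k V)) := by
    have e : (⋀[k]^0 V : Submodule k (ExteriorAlgebra k V)) = 1 := pow_zero _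
    rwa [e] at hx
  obtain ⟨c, hc⟩ := Submodule.mem_one.1 h
  exact ⟨c, hc.symm⟩

theorem LFE_mem_alg (c : k) : algebraMap k (ExteriorAlgebra k V) c ∈
    (⋀[k]^0 V : Submodule k (ExteriorAlgebra k V)) := by
  have e : (⋀[k]^0 V : Submodule k (ExteriorAlgebra k V)) = 1 := pow_zero _
  rw [e]
  exact Submodule.mem_one.2 ⟨c, rfl⟩

theorem LFE_mem_mul (n : ℕ) (v : V) (y : ExteriorAlgebra k V)
    (hy : y ∈ (⋀[k]^n V : Submodule k (ExteriorAlgebra k V))) :
    ExteriorAlgebra.ι k v * y ∈ (⋀[k]^(n + 1) V : Submodule k (ExteriorAlgebra k V)) := by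
  have e : (⋀[k]^(n + 1) V : Submodule k (ExteriorAlgebra k V)) =
      LinearMap.range (ExteriorAlgebra.ι k (M := V)) * (⋀[k]^n V) := pow_succ' _ n
  rw [e]
  exact Submodule.mul_mem_mul ⟨v, rfl⟩ hy

theorem LFE_mem_ind (n : ℕ) {P : ExteriorAlgebra k V → Prop}
    (hm : ∀ (v : V) (y : ExteriorAlgebra k V),
      y ∈ (⋀[k]^n V : Submodule k (ExteriorAlgebra k V)) → P (ExteriorAlgebra.ι k v * y))
    (ha : ∀ x y, P x → P y → P (x + y)) (x : ExteriorAlgebra k V)
    (hx : x ∈ (⋀[k]^(n + 1) V : Submodule k (ExteriorAlgebra k V))) : P x := by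
  have e : (⋀[k]^(n + 1) V : Submodule k (ExteriorAlgebra k V)) =
      LinearMap.range (ExteriorAlgebra.ι k (M := V)) * (⋀[k]^n V) := pow_succ' _ n
  rw [e] at hx
  refine Submodule.mul_induction_on hx ?_ ha
  rintro _ ⟨v, rfl⟩ y hy
  exact hm v y hy

theorem LFE_c_mem (δ : V →ₗ[k] k) (n : ℕ) : ∀ x : ExteriorAlgebra k V,
    x ∈ (⋀[k]^(n + 1) V : Submodule k (ExteriorAlgebra k V)) →
    LFE_c δ x ∈ (⋀[k]^n V : Submodule k (ExteriorAlgebra k V)) := by
  induction n with
  | zero =>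
    intro x hx
    refine LFE_mem_ind 0 (P := fun x => LFE_c δ x ∈
      (⋀[k]^0 V : Submodule k (ExteriorAlgebra k V))) ?_ ?_ x hx
    · intro v y hy
      obtain ⟨c, rfl⟩ := LFE_mem0 y hy
      rw [LFE_c_mul, LFE_c_alg, mul_zero, sub_zero]
      exact Submodule.smul_mem _ _ (LFE_mem_alg c)
    · intro x y h1 h2
      rw [map_add]
      exact Submodule.add_mem _ h1 h2
  | succ n ih =>
    intro x hx
    refine LFE_mem_ind (n + 1) (P := fun x => LFE_c δ x ∈
      (⋀[k]^(n + 1) V : Submodule k (ExteriorAlgebra k V))) ?_ ?_ x hx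
    · intro v y hy
      rw [LFE_c_mul]
      exact Submodule.sub_mem _ (Submodule.smul_mem _ _ hy) (LFE_mem_mul n v _ (ih y hy))
    · intro x y h1 h2
      rw [map_add]
      exact Submodule.add_mem _ h1 h2

theorem LFE_map_mem (g : V →ₗ[k] V') (n : ℕ) : ∀ x : ExteriorAlgebra k V,
    x ∈ (⋀[k]^n V : Submodule k (ExteriorAlgebra k V)) →
    ExteriorAlgebra.map g x ∈ (⋀[k]^n V' : Submodule k (ExteriorAlgebra k V')) := by
  induction n with
  | zero =>
    intro x hx
    obtain ⟨c, rfl⟩ := LFE_mem0 x hx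
    rw [AlgHom.commutes]
    exact LFE_mem_alg c
  | succ n ih =>
    intro x hx
    refine LFE_mem_ind n (P := fun x => ExteriorAlgebra.map g x ∈
      (⋀[k]^(n + 1) V' : Submodule k (ExteriorAlgebra k V'))) ?_ ?_ x hx
    · intro v y hy
      rw [map_mul, ExteriorAlgebra.map_apply_ι]
      exact LFE_mem_mul n _ _ (ih y hy)
    · intro x y h1 h2
      rw [map_add]
      exact Submodule.add_mem _ h1 h2

end

theorem LFE_mapmap {k V V' V'' : Type} [Field k] [AddCommGroup V] [Module k V] [AddCommGroup V']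
    [Module k V'] [AddCommGroup V''] [Module k V''] (g : V →ₗ[k] V') (g' : V' →ₗ[k] V'')
    (x : ExteriorAlgebra k V) :
    ExteriorAlgebra.map g' (ExteriorAlgebra.map g x) = ExteriorAlgebra.map (g' ∘ₗ g) x := by
  rw [← ExteriorAlgebra.map_comp_map]
  rfl

theorem LFE (hL10 : GJ.L10_stmt) : LFE_stmt := by
  classical
  intro Ω W1 W2 ι H _ _ _ _ _ _ _ _ f ρ1 ρ2 ψ hψ A d hyp
  obtain ⟨hι, h1, hLeib, -, -, -, -⟩ := hL10 Ω (W1 × W2)
  obtain ⟨g, hg⟩ : ∃ g : H → (W1 × W2 →ₗ[Ω] W1 × W2), g = fun h =>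
    LinearMap.prodMap (ρ1 h : W1 →ₗ[Ω] W1) (ρ2 h : W2 →ₗ[Ω] W2) := ⟨_, rfl⟩
  have hga : ∀ h (w : W1 × W2), g h w = (ρ1 h w.1, ρ2 h w.2) := by
    intro h w
    rw [hg]
    rfl
  obtain ⟨δ, hδ⟩ : ∃ δ : ι → (W1 × W2 →ₗ[Ω] Ω), δ = fun j => f.coord j ∘ₗ LinearMap.snd Ω W1 W2 :=
    ⟨_, rfl⟩
  have hδa : ∀ j (w : W1 × W2), δ j w = f.repr w.2 j := by
    intro j w
    rw [hδ]
    rfl
  obtain ⟨e, he⟩ : ∃ e : ι → W1 × W2, e = fun j => (0, f j) := ⟨_, rfl⟩
  have hδe : ∀ i j, δ i (e j) = if i = j then 1 else 0 := by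
    intro i j
    rw [hδa, he]
    simp only
    rw [Module.Basis.repr_self, Finsupp.single_apply]
    by_cases h : i = j
    · rw [if_pos h, if_pos h.symm]
    · rw [if_neg h, if_neg (fun h' => h h'.symm)]
  have hψ0 : ∀ j h, ψ j h ≠ 0 := by
    intro j h h0
    have h2 := hψ h j
    rw [h0, zero_smul] at h2
    exact f.ne_zero j ((LinearEquiv.map_eq_zero_iff _).1 h2)
  -- the functionals are eigenvectors
  have hδg : ∀ j h, δ j ∘ₗ g h = ψ j h • δ j := by
    intro j h
    ext w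
    · simp only [LinearMap.comp_apply, LinearMap.inl_apply, hga, hδa, LinearMap.smul_apply, map_zero]
      simp
    · simp only [LinearMap.comp_apply, LinearMap.inr_apply, hga, hδa, LinearMap.smul_apply, smul_eq_mul]
      have h3 : f.coord j ∘ₗ (ρ2 h : W2 →ₗ[Ω] W2) = ψ j h • f.coord j := by
        refine f.ext fun i => ?_
        simp only [LinearMap.comp_apply, LinearEquiv.coe_coe, hψ, map_smul, LinearMap.smul_apply,
          Module.Basis.coord_apply, Module.Basis.repr_self, smul_eq_mul, Finsupp.single_apply]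
        by_cases h4 : i = j
        · rw [h4]
        · rw [if_neg h4, mul_zero, mul_zero]
      exact LinearMap.congr_fun h3 w
  have hge : ∀ j h, g h (e j) = ψ j h • e j := by
    intro j h
    rw [hga, he]
    simp only [map_zero, hψ]
    rw [Prod.smul_mk, smul_zero]
  have hpg : ∀ j h, LFE_p (δ j) (e j) ∘ₗ g h = g h ∘ₗ LFE_p (δ j) (e j) := by
    intro j h
    refine LinearMap.ext fun w => ?_
    rw [LinearMap.comp_apply, LinearMap.comp_apply, LFE_p_apply, LFE_p_apply, map_sub, map_smul, hge]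
    have h3 : δ j (g h w) = ψ j h * δ j w := LinearMap.congr_fun (hδg j h) w
    rw [h3, smul_smul, mul_comm]
  have hδp : ∀ i j, i ≠ j → δ i ∘ₗ LFE_p (δ j) (e j) = δ i := by
    intro i j hij
    refine LinearMap.ext fun w => ?_
    rw [LinearMap.comp_apply, LFE_p_apply, map_sub, map_smul, hδe, if_neg hij, smul_zero, sub_zero]
  have hδpp : ∀ j, δ j ∘ₗ LFE_p (δ j) (e j) = 0 := by
    intro j
    refine LinearMap.ext fun w => ?_
    rw [LinearMap.comp_apply, LFE_p_apply, map_sub, map_smul, hδe, if_pos rfl, smul_eq_mul, mul_one,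
      sub_self]
    rfl
  have hAe : ∀ j, LinearMap.prodMap A (0 : W2 →ₗ[Ω] W2) (e j) = 0 := by
    intro j
    rw [he]
    simp
  -- the base case
  have hbase : ∀ X : ExteriorAlgebra Ω (W1 × W2), (∀ i, LFE_c (δ i) X = 0) →
      ExteriorAlgebra.map (LinearMap.inl Ω W1 W2) (ExteriorAlgebra.map (LinearMap.fst Ω W1 W2) X) = X := by
    intro X hX
    have hstep : ∀ i, ExteriorAlgebra.map (LFE_p (δ i) (e i)) X = X := by
      intro i
      have h2 := LFE_split (δ i) (e i) X
      rw [hX i, mul_zero, add_zero] at h2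
      exact h2.symm
    have hT : ∀ T : Finset ι, ∃ q : W1 × W2 →ₗ[Ω] W1 × W2, (∀ w : W1 × W2, q w =
        (w.1, w.2 - ∑ i ∈ T, f.repr w.2 i • f i)) ∧ ExteriorAlgebra.map q X = X := by
      intro T
      induction T using Finset.induction_on with
      | empty =>
        refine ⟨LinearMap.id, ?_, ?_⟩
        · intro w
          simp
        · rw [ExteriorAlgebra.map_id]
          rfl
      | insert i T hi ih =>
        obtain ⟨q, hq, hqX⟩ := ih
        refine ⟨LFE_p (δ i) (e i) ∘ₗ q, ?_, ?_⟩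
        · intro w
          rw [LinearMap.comp_apply, LFE_p_apply, hδa, hq, Finset.sum_insert hi]
          have h3 : f.repr (w.2 - ∑ j ∈ T, f.repr w.2 j • f j) i = f.repr w.2 i := by
            rw [map_sub, Finsupp.sub_apply, map_sum, Finsupp.finsetSum_apply]
            rw [Finset.sum_eq_zero, sub_zero]
            intro j hj
            rw [map_smul, Module.Basis.repr_self, Finsupp.smul_apply, Finsupp.single_apply, if_neg,
              smul_zero]
            intro h4
            exact hi (h4 ▸ hj)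
          rw [h3, he]
          simp only [Prod.smul_mk, smul_zero, Prod.mk_sub_mk, sub_zero]
          rw [Prod.mk.injEq]
          exact ⟨rfl, by abel⟩
        · rw [← LFE_mapmap, hqX, hstep]
    obtain ⟨q, hq, hqX⟩ := hT Finset.univ
    have h5 : q = LinearMap.inl Ω W1 W2 ∘ₗ LinearMap.fst Ω W1 W2 := by
      refine LinearMap.ext fun w => ?_
      rw [hq, f.sum_repr, sub_self]
      rfl
    rw [LFE_mapmap, ← h5, hqX]
  -- the induction
  have main : ∀ S : Finset ι, ∀ n ≤ d, ∀ X ∈ (⋀[Ω]^n (W1 × W2) : Submodule Ω (ExteriorAlgebra Ω (W1 × W2))),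
      ∀ κ : H → Ω, (∀ h, ExteriorAlgebra.map (g h) X = κ h • X) → (∀ i, i ∉ S → LFE_c (δ i) X = 0) →
      dX (LinearMap.prodMap A (0 : W2 →ₗ[Ω] W2)) X = 0 := by
    intro S
    induction S using Finset.induction_on with
    | empty =>
      intro n hn X hX κ hκ h0
      have h2 := hbase X (fun i => h0 i (Finset.notMem_empty i))
      have h3 := hyp n hn (ExteriorAlgebra.map (LinearMap.fst Ω W1 W2) X)
        (LFE_map_mem _ n X hX) κ (by
          intro h
          have h4 : (ρ1 h : W1 →ₗ[Ω] W1) ∘ₗ LinearMap.fst Ω W1 W2 = LinearMap.fst Ω W1 W2 ∘ₗ g h := by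
            refine LinearMap.ext fun w => ?_
            rw [LinearMap.comp_apply, LinearMap.comp_apply, hga]
            rfl
          rw [LFE_mapmap, h4, ← LFE_mapmap, hκ, map_smul])
      rw [← h2, ← (hL10 Ω W1).2.2.2.2.2.2 (W1 × W2) (LinearMap.inl Ω W1 W2) A
        (LinearMap.prodMap A (0 : W2 →ₗ[Ω] W2)) (by
          refine LinearMap.ext fun w => ?_
          simp), h3, map_zero]
    | insert j S hj ih =>
      intro n hn X hX κ hκ h0
      rcases n with _ | n
      · obtain ⟨c, rfl⟩ := LFE_mem0 X hX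
        rw [Algebra.algebraMap_eq_smul_one, map_smul, h1, smul_zero]
      · have hX' := LFE_c_mem (δ j) n X hX
        have hsplit := LFE_split (δ j) (e j) X
        have e1 : dX (LinearMap.prodMap A (0 : W2 →ₗ[Ω] W2)) (LFE_c (δ j) X) = 0 := by
          refine ih n (by omega) _ hX' (fun h => (ψ j h)⁻¹ * κ h) ?_ ?_
          · intro h
            have h2 := LFE_c_map (g h) (δ j) X
            rw [hκ, map_smul, hδg, LFE_c_smul, map_smul] at h2
            rw [mul_smul, h2, smul_smul, inv_mul_cancel₀ (hψ0 j h), one_smul]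
          · intro i hi
            by_cases hij : i = j
            · rw [hij]
              exact LFE_c_c _ _
            · rw [LFE_c_comm, h0 i (by
                rw [Finset.mem_insert, not_or]
                exact ⟨hij, hi⟩), map_zero, neg_zero]
        have e2 : dX (LinearMap.prodMap A (0 : W2 →ₗ[Ω] W2))
            (ExteriorAlgebra.map (LFE_p (δ j) (e j)) X) = 0 := by
          refine ih (n + 1) hn _ (LFE_map_mem _ (n + 1) X hX) κ ?_ ?_
          · intro h
            rw [LFE_mapmap, ← hpg, ← LFE_mapmap, hκ, map_smul]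
          · intro i hi
            rw [LFE_c_map]
            by_cases hij : i = j
            · rw [hij, hδpp, LFE_c_zero, map_zero]
            · rw [hδp i j hij, h0 i (by
                rw [Finset.mem_insert, not_or]
                exact ⟨hij, hi⟩), map_zero]
        rw [hsplit, map_add, e2, hLeib, hι, hAe, map_zero, zero_mul, e1, mul_zero, add_zero, add_zero]
  intro X hX κ hκ
  refine main Finset.univ d le_rfl X hX κ ?_ ?_
  · intro h
    rw [hg]
    exact hκ h
  · intro i hi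
    exact absurd (Finset.mem_univ i) hi

end

end Pool.Agent.AQ
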